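import Mathlib

set_option autoImplicit false

open Filter Topology

namespace Pool.Agent.Results.MP_59cc96_an.OperationalIsSummation

variable {𝕜 : Type*} [RCLike 𝕜] {E : Type*} [NormedAddCommGroup E] [NormedSpace 𝕜 E]

/-- `P x n` is the span of the first `n` vectors `x 0, …, x (n - 1)`. -/
def P (𝕜 : Type*) [RCLike 𝕜] {E : Type*} [NormedAddCommGroup E] [NormedSpace 𝕜 E]
    (x : ℕ → E) (n : ℕ) : Submodule 𝕜 E :=
  Submodule.span 𝕜 (x '' Set.Iio n)

theorem mem_P (x : ℕ → E) {n i : ℕ} (h : i < n) : x i ∈ P 𝕜 x n :=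
  Submodule.subset_span ⟨i, h, rfl⟩

/-- The vector `∑_{i < n} α_i x_i`, as an element of `P x n`. -/
def psum (x : ℕ → E) (n : ℕ) (α : ℕ → 𝕜) : P 𝕜 x n :=
  ⟨∑ i ∈ Finset.range n, α i • x i,
    Submodule.sum_mem _ fun _ hi => Submodule.smul_mem _ _ (mem_P x (Finset.mem_range.1 hi))⟩

/-- `f` is a sequence of functionals biorthogonal to `x`, and `x` has dense linear span:
`x` is complete minimal with coefficient functionals `f`. -/
def IsCompleteMinimal (x : ℕ → E) (f : ℕ → E →L[𝕜] 𝕜) : Prop :=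
  closure ((Submodule.span 𝕜 (Set.range x) : Submodule 𝕜 E) : Set E) = Set.univ ∧
    ∀ i j, f i (x j) = if i = j then 1 else 0

/-- `x` is an operational basis: it is complete minimal, and for some endomorphisms `v n` of
`P x n` one has `y = lim v_n (s_n y)` for all `y`, where `s_n y = ∑_{i < n} f_i(y) x_i`. -/
def IsOperationalBasis (𝕜 : Type*) [RCLike 𝕜] {E : Type*} [NormedAddCommGroup E]
    [NormedSpace 𝕜 E] (x : ℕ → E) : Prop :=
  ∃ f : ℕ → E →L[𝕜] 𝕜, IsCompleteMinimal x f ∧ ∃ v : ∀ n, P 𝕜 x n →ₗ[𝕜] P 𝕜 x n,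
    ∀ y : E, Tendsto (fun n => (v n (psum x n (fun i => f i y)) : E)) atTop (𝓝 y)

/-- `x` is a generalized summation basis with respect to the endomorphisms `v n` of `P x n`:
(a) `lim_n v_n (x_i) = x_i` for every `i`; (b) every `y` has exactly one scalar sequence `α` with
`y = lim_n v_n (∑_{i < n} α_i x_i)`. -/
def IsSummationBasis (x : ℕ → E) (v : ∀ n, P 𝕜 x n →ₗ[𝕜] P 𝕜 x n) : Prop :=
  (∀ i, Tendsto (fun n => (v (i + 1 + n) ⟨x i, mem_P x (by omega)⟩ : E)) atTop (𝓝 (x i))) ∧
  ∀ y : E, ∃! α : ℕ → 𝕜, Tendsto (fun n => (v n (psum x n α) : E)) atTop (𝓝 y)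

/-- For a nonzero functional and a dense increasing union there is a vector of controlled norm in
one of the finite-dimensional pieces on which the functional is one. -/
theorem exists_u (x : ℕ → E) (f : ℕ → E →L[𝕜] 𝕜) (h : IsCompleteMinimal x f) (i : ℕ) :
    ∃ (N : ℕ) (u : E), u ∈ P 𝕜 x N ∧ f i u = 1 ∧ ∀ z : E, ‖f i z‖ * ‖u‖ ≤ 2 * ‖z‖ := by
  have hfi : 0 < ‖f i‖ := by
    rw [norm_pos_iff]
    intro h0
    have := h.2 i i
    rw [h0, if_pos rfl] at this
    simp at this
  obtain ⟨z, hz1, hz2⟩ := (f i).exists_lt_apply_of_lt_opNorm (half_lt_self hfi)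
  -- approximate `z` by a vector in the span
  have hU : IsOpen {w : E | ‖w‖ < 1 ∧ ‖f i‖ / 2 < ‖f i w‖} :=
    (isOpen_lt continuous_norm continuous_const).inter
      (isOpen_lt continuous_const ((f i).continuous.norm))
  have hz : z ∈ closure ((Submodule.span 𝕜 (Set.range x) : Submodule 𝕜 E) : Set E) := by
    rw [h.1]; trivial
  obtain ⟨w, ⟨hw1, hw2⟩, hw3⟩ := mem_closure_iff.1 hz _ hU ⟨hz1, hz2⟩
  have hmono : Monotone (fun n => P 𝕜 x n) := by
    intro a b hab
    exact Submodule.span_mono (Set.image_mono (Set.Iio_subset_Iio hab))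
  have hsup : Submodule.span 𝕜 (Set.range x) ≤ ⨆ n, P 𝕜 x n := by
    rw [Submodule.span_le]
    rintro _ ⟨k, rfl⟩
    exact Submodule.mem_iSup_of_mem (k + 1) (mem_P x (Nat.lt_succ_self k))
  obtain ⟨N, hN⟩ := (Submodule.mem_iSup_of_directed _ hmono.directed_le).1 (hsup hw3)
  have hne : f i w ≠ 0 := by
    intro h0
    rw [h0, norm_zero] at hw2
    linarith
  refine ⟨N, (f i w)⁻¹ • w, Submodule.smul_mem _ _ hN, ?_, fun y => ?_⟩
  · rw [map_smul, smul_eq_mul, inv_mul_cancel₀ hne]
  · rw [norm_smul, norm_inv]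
    have h1 : ‖f i y‖ ≤ ‖f i‖ * ‖y‖ := (f i).le_opNorm y
    have hpos : 0 < ‖f i w‖ := norm_pos_iff.2 hne
    calc ‖f i y‖ * (‖f i w‖⁻¹ * ‖w‖) = ‖f i y‖ * ‖w‖ / ‖f i w‖ := by ring
      _ ≤ (‖f i‖ * ‖y‖) * 1 / ‖f i w‖ := by
        apply div_le_div_of_nonneg_right _ hpos.le
        exact mul_le_mul h1 hw1.le (norm_nonneg _) (by positivity)
      _ ≤ 2 * ‖y‖ := by
        rw [div_le_iff₀ hpos]
        nlinarith [norm_nonneg y]

/-- Every operational basis of a Banach space is a generalized summation basis with respect to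
some sequence of endomorphisms. -/
theorem result {𝕜 : Type*} [RCLike 𝕜] {E : Type*} [NormedAddCommGroup E] [NormedSpace 𝕜 E]
    [CompleteSpace E] (x : ℕ → E) (hx : IsOperationalBasis 𝕜 x) :
    ∃ v : ∀ n, P 𝕜 x n →ₗ[𝕜] P 𝕜 x n, IsSummationBasis x v := by
  classical
  obtain ⟨f, hf, v, hv⟩ := hx
  choose N u hu1 hu2 hu3 using exists_u x f hf
  -- the index treated at stage `n`
  let i : ℕ → ℕ := fun n => (Nat.unpair n).1
  let good : ℕ → Prop := fun n => i n < n ∧ N (i n) ≤ n
  have hmono : ∀ {a b : ℕ}, a ≤ b → P 𝕜 x a ≤ P 𝕜 x b := fun hab =>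
    Submodule.span_mono (Set.image_mono (Set.Iio_subset_Iio hab))
  -- the corrected endomorphisms
  let c : ∀ n, P 𝕜 x n →ₗ[𝕜] 𝕜 := fun n =>
    (f (i n)).toLinearMap.comp ((P 𝕜 x n).subtype - (P 𝕜 x n).subtype.comp (v n))
  let v' : ∀ n, P 𝕜 x n →ₗ[𝕜] P 𝕜 x n := fun n =>
    if h : good n then v n + (c n).smulRight ⟨u (i n), hmono h.2 (hu1 (i n))⟩ else v n
  have hc : ∀ n (p : P 𝕜 x n), c n p = f (i n) p - f (i n) (v n p) := by
    intro n p
    change f (i n) ((p : E) - (v n p : E)) = _
    rw [map_sub]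
  have hv'g : ∀ n, good n → ∀ p : P 𝕜 x n,
      (v' n p : E) = v n p + (f (i n) p - f (i n) (v n p)) • u (i n) := by
    intro n h p
    change ((if h : good n then v n + (c n).smulRight ⟨u (i n), hmono h.2 (hu1 (i n))⟩ else v n :
      P 𝕜 x n →ₗ[𝕜] P 𝕜 x n) p : E) = _
    rw [dif_pos h]
    change (v n p : E) + c n p • u (i n) = _
    rw [hc]
  have hv'b : ∀ n, ¬ good n → v' n = v n := fun n h => dif_neg h
  -- the corrected maps reproduce the coordinate functional
  have hrep : ∀ n, good n → ∀ p : P 𝕜 x n, f (i n) (v' n p) = f (i n) p := by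
    intro n h p
    rw [hv'g n h, map_add, map_smul, hu2, smul_eq_mul, mul_one]
    ring
  have hfps : ∀ (j n : ℕ) (α : ℕ → 𝕜), j < n → f j (psum x n α : E) = α j := by
    intro j n α hj
    change f j (∑ k ∈ Finset.range n, α k • x k) = α j
    rw [map_sum, Finset.sum_eq_single j]
    · rw [map_smul, hf.2, if_pos rfl, smul_eq_mul, mul_one]
    · intro b _ hb
      rw [map_smul, hf.2, if_neg hb.symm, smul_zero]
    · intro h
      exact absurd (Finset.mem_range.2 hj) h
  -- convergence of the new method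
  have hconv : ∀ y : E, Tendsto (fun n => (v' n (psum x n (fun i => f i y)) : E)) atTop (𝓝 y) := by
    intro y
    have h1 := hv y
    rw [tendsto_iff_norm_sub_tendsto_zero] at h1 ⊢
    have h3 : Tendsto (fun n => 3 * ‖(v n (psum x n (fun i => f i y)) : E) - y‖) atTop (𝓝 0) := by
      simpa using h1.const_mul 3
    refine squeeze_zero (fun _ => norm_nonneg _) (fun n => ?_) h3
    by_cases hg : good n
    · rw [hv'g n hg, hfps (i n) n _ hg.1, ← map_sub]
      have h4 := hu3 (i n) (y - (v n (psum x n (fun i => f i y)) : E))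
      calc ‖(v n (psum x n (fun i => f i y)) : E) +
            f (i n) (y - (v n (psum x n (fun i => f i y)) : E)) • u (i n) - y‖
          = ‖((v n (psum x n (fun i => f i y)) : E) - y) +
            f (i n) (y - (v n (psum x n (fun i => f i y)) : E)) • u (i n)‖ := by
            congr 1; abel
        _ ≤ ‖(v n (psum x n (fun i => f i y)) : E) - y‖ +
            ‖f (i n) (y - (v n (psum x n (fun i => f i y)) : E)) • u (i n)‖ := norm_add_le _ _
        _ ≤ ‖(v n (psum x n (fun i => f i y)) : E) - y‖ +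
            2 * ‖y - (v n (psum x n (fun i => f i y)) : E)‖ := by
            rw [norm_smul]
            linarith
        _ = 3 * ‖(v n (psum x n (fun i => f i y)) : E) - y‖ := by
            rw [norm_sub_rev y]; ring
    · rw [hv'b n hg]
      have := norm_nonneg ((v n (psum x n (fun i => f i y)) : E) - y)
      linarith
  -- each index is treated infinitely often
  have hinf : ∀ (j M : ℕ), ∃ n, M ≤ n ∧ good n ∧ i n = j := by
    intro j M
    refine ⟨Nat.pair j (M + j + 1 + N j), ?_, ⟨?_, ?_⟩, ?_⟩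
    · have := Nat.right_le_pair j (M + j + 1 + N j); omega
    · change (Nat.unpair _).1 < _
      rw [Nat.unpair_pair]
      have := Nat.right_le_pair j (M + j + 1 + N j)
      change j < _
      omega
    · change N (Nat.unpair _).1 ≤ _
      rw [Nat.unpair_pair]
      have := Nat.right_le_pair j (M + j + 1 + N j)
      change N j ≤ _
      omega
    · change (Nat.unpair _).1 = j
      rw [Nat.unpair_pair]
  refine ⟨v', ?_, ?_⟩
  · intro j
    have h1 := (hconv (x j)).comp (tendsto_add_atTop_nat (j + 1))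
    refine h1.congr fun n => ?_
    change (v' (n + (j + 1)) (psum x (n + (j + 1)) (fun i => f i (x j))) : E) = _
    have e : n + (j + 1) = j + 1 + n := by omega
    have h2 : ∀ m, ∀ hm : j < m, psum x m (fun i => f i (x j)) = ⟨x j, mem_P x hm⟩ := by
      intro m hm
      apply Subtype.ext
      change ∑ k ∈ Finset.range m, f k (x j) • x k = x j
      rw [Finset.sum_eq_single j]
      · rw [hf.2, if_pos rfl, one_smul]
      · intro b _ hb
        rw [hf.2, if_neg hb, zero_smul]
      · intro h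
        exact absurd (Finset.mem_range.2 hm) h
    rw [h2 (n + (j + 1)) (by omega)]
    have key : ∀ (a b : ℕ) (hab : a = b) (ha : j < a) (hb : j < b),
        (v' a ⟨x j, mem_P x ha⟩ : E) = v' b ⟨x j, mem_P x hb⟩ := by
      intro a b hab ha hb
      subst hab
      rfl
    exact key _ _ e (by omega) (by omega)
  · intro y
    refine ⟨fun n => f n y, hconv y, ?_⟩
    intro α hα
    funext j
    -- along the stages treating `j` the functional `f j` of the approximations is `α j`
    have h1 : Tendsto (fun n => f j (v' n (psum x n α) : E)) atTop (𝓝 (f j y)) :=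
      ((f j).continuous.tendsto y).comp hα
    have h2 : ∃ᶠ n in atTop, f j (v' n (psum x n α) : E) = α j := by
      rw [Filter.frequently_atTop]
      intro M
      obtain ⟨n, hn, hg, hi⟩ := hinf j M
      refine ⟨n, hn, ?_⟩
      have h3 := hrep n hg (psum x n α)
      have h4 := hg.1
      rw [hi] at h3 h4
      rw [h3]
      exact hfps j n α h4
    by_contra hne
    have h5 : ∀ᶠ n in atTop, f j (v' n (psum x n α) : E) ≠ α j :=
      h1.eventually_ne (fun h => hne (by simpa using h.symm))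
    exact h2 (h5.mono fun n hn => hn)

end Pool.Agent.Results.MP_59cc96_an.OperationalIsSummation
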